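import Pool.Agent.L7lead.LA.Stm

set_option autoImplicit false

/-! Project LA, part NT1. -/

namespace Pool.Agent.L7h50.LA

open MeasureTheory Set Filter Topology
open Pool.Agent.L7lead.LA

theorem prod3_lip (a b : Fin 3 → ℝ) (d : ℝ) (ha : ∀ j, 0 ≤ a j ∧ a j ≤ 1)
    (hb : ∀ j, 0 ≤ b j ∧ b j ≤ 1) (hd : ∀ j, |a j - b j| ≤ d) : |∏ j, a j - ∏ j, b j| ≤ 3 * d := by
  rw [Fin.prod_univ_three, Fin.prod_univ_three]
  have e1 : a 0 * a 1 * a 2 - b 0 * b 1 * b 2 =
      (a 0 - b 0) * (a 1 * a 2) + b 0 * ((a 1 - b 1) * a 2) + b 0 * b 1 * (a 2 - b 2) := by ring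
  rw [e1]
  have k1 : |(a 0 - b 0) * (a 1 * a 2)| ≤ d := by
    rw [abs_mul, abs_of_nonneg (mul_nonneg (ha 1).1 (ha 2).1)]
    calc |a 0 - b 0| * (a 1 * a 2) ≤ |a 0 - b 0| * 1 := by
          refine mul_le_mul_of_nonneg_left ?_ (abs_nonneg _)
          exact mul_le_one₀ (ha 1).2 (ha 2).1 (ha 2).2
      _ ≤ d := by rw [mul_one]; exact hd 0
  have k2 : |b 0 * ((a 1 - b 1) * a 2)| ≤ d := by
    rw [abs_mul, abs_mul, abs_of_nonneg (hb 0).1, abs_of_nonneg (ha 2).1]
    calc b 0 * (|a 1 - b 1| * a 2) ≤ 1 * (|a 1 - b 1| * 1) := by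
          refine mul_le_mul (hb 0).2 (mul_le_mul_of_nonneg_left (ha 2).2 (abs_nonneg _))
            (mul_nonneg (abs_nonneg _) (ha 2).1) zero_le_one
      _ ≤ d := by rw [one_mul, mul_one]; exact hd 1
  have k3 : |b 0 * b 1 * (a 2 - b 2)| ≤ d := by
    rw [abs_mul, abs_of_nonneg (mul_nonneg (hb 0).1 (hb 1).1)]
    calc b 0 * b 1 * |a 2 - b 2| ≤ 1 * |a 2 - b 2| := by
          refine mul_le_mul_of_nonneg_right ?_ (abs_nonneg _)
          exact mul_le_one₀ (hb 0).2 (hb 1).1 (hb 1).2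
      _ ≤ d := by rw [one_mul]; exact hd 2
  have k4 := abs_add_le ((a 0 - b 0) * (a 1 * a 2) + b 0 * ((a 1 - b 1) * a 2))
    (b 0 * b 1 * (a 2 - b 2))
  have k5 := abs_add_le ((a 0 - b 0) * (a 1 * a 2)) (b 0 * ((a 1 - b 1) * a 2))
  linarith

theorem hc_nonneg {h : ℝ → ℝ} {B : ℝ} (hh : IsBump h B) (L : ℝ) (i : Fin 3 → ℤ) (x : E) :
    0 ≤ Hc h L i x := Finset.prod_nonneg fun _ _ => hh.nonneg _

theorem hc_le_one {h : ℝ → ℝ} {B : ℝ} (hh : IsBump h B) (L : ℝ) (i : Fin 3 → ℤ) (x : E) :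
    Hc h L i x ≤ 1 := Finset.prod_le_one (fun _ _ => hh.nonneg _) fun _ _ => hh.le_one _

theorem hc_zero {h : ℝ → ℝ} {B : ℝ} (hh : IsBump h B) (L : ℝ) (i : Fin 3 → ℤ) (x : E)
    (hj : ∃ j, 1 ≤ |x j / L - i j|) : Hc h L i x = 0 := by
  obtain ⟨j, hj⟩ := hj
  exact Finset.prod_eq_zero (Finset.mem_univ j) (hh.zero _ hj)

theorem hc_lip {h : ℝ → ℝ} {B : ℝ} (hB : 0 < B) (hh : IsBump h B) {L : ℝ} (hL : 0 < L)
    (i : Fin 3 → ℤ) (x y : E) {A : ℝ} (hxy : ‖y - x‖ ≤ A) :
    |Hc h L i y - Hc h L i x| ≤ 3 * (B * (A / L)) := by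
  refine prod3_lip _ _ _ (fun j => ⟨hh.nonneg _, hh.le_one _⟩) (fun j => ⟨hh.nonneg _, hh.le_one _⟩)
    fun j => ?_
  refine (hh.lip _ _).trans (mul_le_mul_of_nonneg_left ?_ hB.le)
  have e1 : y j / L - (i j : ℝ) - (x j / L - (i j : ℝ)) = (y j - x j) / L := by ring
  rw [e1, abs_div, abs_of_pos hL]
  refine div_le_div_of_nonneg_right ?_ hL.le
  have h2 : |(y - x) j| ≤ ‖y - x‖ := by
    have := PiLp.norm_apply_le (p := 2) (y - x) j
    rwa [Real.norm_eq_abs] at this
  have h3 : (y - x) j = y j - x j := rfl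
  rw [h3] at h2
  exact h2.trans hxy

/-- the eight cells at `x` -/
noncomputable def ph (L : ℝ) (x : E) (e : Fin 3 → Fin 2) : Fin 3 → ℤ :=
  fun j => ⌊x j / L⌋ + ((e j : ℕ) : ℤ)

theorem ph_inj (L : ℝ) (x : E) : Function.Injective (ph L x) := by
  intro e e' h
  funext j
  have h1 := congrFun h j
  unfold ph at h1
  have h2 : ((e j : ℕ) : ℤ) = ((e' j : ℕ) : ℤ) := by linarith
  exact Fin.ext (by exact_mod_cast h2)

/-- the box of the 64 cells around `x` -/
noncomputable def bx (L : ℝ) (x : E) : Finset (Fin 3 → ℤ) :=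
  Fintype.piFinset fun j => Finset.Icc (⌊x j / L⌋ - 1) (⌊x j / L⌋ + 2)

theorem bx_card (L : ℝ) (x : E) : (bx L x).card = 64 := by
  unfold bx
  rw [Fintype.card_piFinset]
  have h : ∀ j : Fin 3, (Finset.Icc (⌊x j / L⌋ - 1) (⌊x j / L⌋ + 2)).card = 4 := by
    intro j
    rw [Int.card_Icc]
    have : ⌊x j / L⌋ + 2 + 1 - (⌊x j / L⌋ - 1) = 4 := by ring
    rw [this]
    rfl
  simp only [h, Finset.prod_const, Finset.card_univ, Fintype.card_fin]
  norm_num

theorem ph_mem (L : ℝ) (x : E) (e : Fin 3 → Fin 2) : ph L x e ∈ bx L x := by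
  unfold bx ph
  rw [Fintype.mem_piFinset]
  intro j
  rw [Finset.mem_Icc]
  have h1 : ((e j : ℕ) : ℤ) < 2 := by exact_mod_cast (e j).isLt
  have h2 : (0 : ℤ) ≤ ((e j : ℕ) : ℤ) := Int.natCast_nonneg _
  constructor <;> linarith

theorem t_NT1 (hT : S_THI) : S_NT1 := by
  classical
  intro h B hB hh K A μ hA hμ
  obtain ⟨δ', hδ', h1⟩ := hT (Fin 3 → Fin 2) K (1 / 20) A μ (by norm_num) hA hμ
  refine ⟨δ' / 2, by positivity, max A (64 * (3 * (B * A)) / (δ' / 2)), lt_max_of_lt_left hA,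
    fun L hL k F hk hkk hF x => ?_⟩
  have hLA : A ≤ L := (le_max_left _ _).trans hL
  have hL0 : 0 < L := hA.trans_le hLA
  have hLB : 64 * (3 * (B * (A / L))) ≤ δ' / 2 := by
    have h2 := (le_max_right _ _).trans hL
    rw [div_le_iff₀ (by positivity)] at h2
    have e1 : 64 * (3 * (B * (A / L))) = 64 * (3 * (B * A)) / L := by ring
    rw [e1, div_le_iff₀ hL0]
    linarith
  -- the coefficients
  let a : (Fin 3 → Fin 2) → ℝ := fun e => Hc h L (ph L x e) x
  let θ : (Fin 3 → Fin 2) → ℝ := fun e => -(inner ℝ (k (ph L x e)) (L • pt (ph L x e)))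
  have hfl : ∀ j, (⌊x j / L⌋ : ℝ) ≤ x j / L ∧ x j / L < ⌊x j / L⌋ + 1 := fun j =>
    ⟨Int.floor_le _, Int.lt_floor_add_one _⟩
  have h2 := h1 a θ (fun e => k (ph L x e)) (fun e => by
      rw [abs_of_nonneg (hc_nonneg hh L _ x)]
      exact hc_le_one hh L _ x) (by
      refine ⟨fun j => if x j / L - ⌊x j / L⌋ ≤ 1 / 2 then 0 else 1, ?_⟩
      refine Finset.prod_eq_one fun j _ => hh.one _ ?_
      by_cases hj : x j / L - ⌊x j / L⌋ ≤ 1 / 2
      · have e1 : ph L x (fun j => if x j / L - ⌊x j / L⌋ ≤ 1 / 2 then 0 else 1) j = ⌊x j / L⌋ := by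
          unfold ph
          simp only [if_pos hj]
          simp
        rw [e1, abs_of_nonneg (by linarith [(hfl j).1])]
        exact hj
      · have e1 : ph L x (fun j => if x j / L - ⌊x j / L⌋ ≤ 1 / 2 then 0 else 1) j =
            ⌊x j / L⌋ + 1 := by
          unfold ph
          simp only [if_neg hj]
          simp
        rw [e1]
        push_cast
        rw [abs_of_nonpos (by linarith [(hfl j).2])]
        linarith [not_le.1 hj]) (fun e => ⟨by linarith [(hk (ph L x e)).1], (hk (ph L x e)).2⟩)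
    (fun e e' hee => hkk _ _ (fun heq => hee (ph_inj L x heq)) (fun m => by
      unfold ph
      have g1 : ((e m : ℕ) : ℤ) < 2 := by exact_mod_cast (e m).isLt
      have g2 : (0 : ℤ) ≤ ((e m : ℕ) : ℤ) := Int.natCast_nonneg _
      have g3 : ((e' m : ℕ) : ℤ) < 2 := by exact_mod_cast (e' m).isLt
      have g4 : (0 : ℤ) ≤ ((e' m : ℕ) : ℤ) := Int.natCast_nonneg _
      have g5 : ⌊x m / L⌋ + ((e m : ℕ) : ℤ) - (⌊x m / L⌋ + ((e' m : ℕ) : ℤ)) =
        ((e m : ℕ) : ℤ) - ((e' m : ℕ) : ℤ) := by ring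
      rw [g5, abs_le]
      constructor <;> omega)) x
  refine le_trans (measure_mono fun y hy => ?_) h2
  obtain ⟨hy1, hy2⟩ := hy
  refine ⟨hy1, ?_⟩
  have hyx : ‖y - x‖ ≤ A := by
    rw [Metric.mem_ball, dist_eq_norm] at hy1
    exact hy1.le
  -- F y as a sum over the box
  have hFy : F y = ∑ i ∈ bx L x, Hc h L i y * Real.cos (inner ℝ (k i) (y - L • pt i)) := by
    refine hF y (bx L x) fun i hi => ?_
    unfold bx at hi
    rw [Fintype.mem_piFinset] at hi
    push Not at hi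
    obtain ⟨j, hj⟩ := hi
    refine ⟨j, ?_⟩
    have h3 : |y j / L - x j / L| ≤ 1 := by
      have h4 : |(y - x) j| ≤ ‖y - x‖ := by
        have := PiLp.norm_apply_le (p := 2) (y - x) j
        rwa [Real.norm_eq_abs] at this
      have h5 : (y - x) j = y j - x j := rfl
      rw [h5] at h4
      have e1 : y j / L - x j / L = (y j - x j) / L := by ring
      rw [e1, abs_div, abs_of_pos hL0, div_le_one hL0]
      linarith
    rw [abs_le] at h3
    rw [Finset.mem_Icc, not_and_or, not_le, not_le] at hj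
    rw [le_abs]
    rcases hj with hj | hj
    · left
      have h6 : (i j : ℝ) ≤ ⌊x j / L⌋ - 2 := by
        have : i j ≤ ⌊x j / L⌋ - 2 := by linarith [Int.lt_iff_add_one_le.1 hj]
        exact_mod_cast this
      linarith [(hfl j).1, h3.1]
    · right
      have h6 : (⌊x j / L⌋ : ℝ) + 3 ≤ i j := by
        have : ⌊x j / L⌋ + 3 ≤ i j := by linarith [Int.lt_iff_add_one_le.1 hj]
        exact_mod_cast this
      linarith [(hfl j).2, h3.2]
  -- the sum with frozen coefficients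
  have hS : ∑ i ∈ bx L x, Hc h L i x * Real.cos (inner ℝ (k i) (y - L • pt i)) =
      ∑ e, a e * Real.cos (inner ℝ (k (ph L x e)) y + θ e) := by
    have h3 : ∑ i ∈ Finset.univ.image (ph L x),
        Hc h L i x * Real.cos (inner ℝ (k i) (y - L • pt i)) =
        ∑ i ∈ bx L x, Hc h L i x * Real.cos (inner ℝ (k i) (y - L • pt i)) := by
      refine Finset.sum_subset (fun i hi => ?_) (fun i hi hi' => ?_)
      · rw [Finset.mem_image] at hi
        obtain ⟨e, -, rfl⟩ := hi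
        exact ph_mem L x e
      · rw [hc_zero hh L i x ?_, zero_mul]
        by_contra hno
        push Not at hno
        refine hi' ?_
        rw [Finset.mem_image]
        have hcase : ∀ j, i j = ⌊x j / L⌋ ∨ i j = ⌊x j / L⌋ + 1 := by
          intro j
          have h4 := hno j
          rw [abs_lt] at h4
          have h5 : (⌊x j / L⌋ : ℝ) - 1 < i j := by linarith [(hfl j).1]
          have h6 : (i j : ℝ) < ⌊x j / L⌋ + 2 := by linarith [(hfl j).2]
          have h7 : ⌊x j / L⌋ - 1 < i j := by exact_mod_cast h5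
          have h8 : i j < ⌊x j / L⌋ + 2 := by exact_mod_cast h6
          omega
        refine ⟨fun j => if i j = ⌊x j / L⌋ then 0 else 1, Finset.mem_univ _, ?_⟩
        funext j
        unfold ph
        by_cases hj : i j = ⌊x j / L⌋
        · simp only [if_pos hj]
          simp [hj]
        · simp only [if_neg hj]
          rcases hcase j with h9 | h9
          · exact absurd h9 hj
          · simp [h9]
    rw [← h3, Finset.sum_image fun e _ e' _ he => ph_inj L x he]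
    refine Finset.sum_congr rfl fun e _ => ?_
    show Hc h L (ph L x e) x * Real.cos (inner ℝ (k (ph L x e)) (y - L • pt (ph L x e))) =
      Hc h L (ph L x e) x * Real.cos (inner ℝ (k (ph L x e)) y +
        -(inner ℝ (k (ph L x e)) (L • pt (ph L x e))))
    rw [inner_sub_right, sub_eq_add_neg]
  have hdiff : |F y - ∑ e, a e * Real.cos (inner ℝ (k (ph L x e)) y + θ e)| ≤ δ' / 2 := by
    rw [hFy, ← hS, ← Finset.sum_sub_distrib]
    refine (Finset.abs_sum_le_sum_abs _ _).trans ?_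
    refine le_trans (Finset.sum_le_card_nsmul _ _ (3 * (B * (A / L))) fun i _ => ?_) ?_
    · rw [← sub_mul, abs_mul]
      calc |Hc h L i y - Hc h L i x| * |Real.cos (inner ℝ (k i) (y - L • pt i))|
          ≤ (3 * (B * (A / L))) * 1 := by
            refine mul_le_mul (hc_lip hB hh hL0 i x y hyx) (Real.abs_cos_le_one _) (abs_nonneg _) ?_
            positivity
        _ = _ := mul_one _
    · rw [bx_card, nsmul_eq_mul]
      exact_mod_cast hLB
  show |∑ e, a e * Real.cos (inner ℝ (k (ph L x e)) y + θ e)| < δ'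
  rw [abs_le] at hdiff
  rw [abs_lt] at hy2 ⊢
  constructor <;> linarith [hdiff.1, hdiff.2, hy2.1, hy2.2]

end Pool.Agent.L7h50.LA
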