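import Pool.Agent.L7lead.LA.Stm

set_option autoImplicit false

/-! Project LA, part THI. -/

namespace Pool.Agent.L7h50.LA

open MeasureTheory Set Filter Topology
open Pool.Agent.L7lead.LA

section

variable {ι : Type} [Fintype ι]

/-- the parameters -/
abbrev Par (ι : Type) := (ι → ℝ) × (ι → ℝ) × (ι → E)

/-- the cosine sum -/
noncomputable def Fs (p : Par ι) (z : E) : ℝ :=
  ∑ e, p.1 e * Real.cos (inner ℝ (p.2.2 e) z + p.2.1 e)

theorem fs_cont : Continuous fun q : Par ι × E => Fs q.1 q.2 := by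
  unfold Fs
  refine continuous_finsetSum _ fun e _ => ?_
  have h1 : Continuous fun q : Par ι × E => q.1.1 e :=
    (continuous_apply e).comp (continuous_fst.comp continuous_fst)
  have h2 : Continuous fun q : Par ι × E => q.1.2.1 e :=
    (continuous_apply e).comp (continuous_fst.comp (continuous_snd.comp continuous_fst))
  have h3 : Continuous fun q : Par ι × E => q.1.2.2 e :=
    (continuous_apply e).comp (continuous_snd.comp (continuous_snd.comp continuous_fst))
  exact h1.mul (Real.continuous_cos.comp ((h3.inner continuous_snd).add h2))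

/-- the set of allowed parameters -/
def PS (ι : Type) [Fintype ι] (K s : ℝ) : Set (Par ι) :=
  {p | (∀ e, |p.1 e| ≤ 1) ∧ (∃ e, p.1 e = 1) ∧ (∀ e, p.2.1 e ∈ Icc 0 (2 * Real.pi)) ∧
    (∀ e, s ≤ ‖p.2.2 e‖ ∧ ‖p.2.2 e‖ ≤ K) ∧
    (∀ e e', e ≠ e' → s ≤ ‖p.2.2 e - p.2.2 e'‖ ∧ s ≤ ‖p.2.2 e + p.2.2 e'‖)}

theorem ps_compact (K s : ℝ) : IsCompact (PS ι K s) := by
  have hc : IsCompact ((univ.pi fun _ : ι => Icc (-1 : ℝ) 1) ×ˢ
      ((univ.pi fun _ : ι => Icc (0 : ℝ) (2 * Real.pi)) ×ˢ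
        (univ.pi fun _ : ι => Metric.closedBall (0 : E) K))) :=
    (isCompact_univ_pi fun _ => isCompact_Icc).prod
      ((isCompact_univ_pi fun _ => isCompact_Icc).prod
        (isCompact_univ_pi fun _ => isCompact_closedBall _ _))
  refine hc.of_isClosed_subset ?_ ?_
  · have c1 : ∀ e, Continuous fun p : Par ι => p.1 e := fun e =>
      (continuous_apply e).comp continuous_fst
    have c2 : ∀ e, Continuous fun p : Par ι => p.2.1 e := fun e =>
      (continuous_apply e).comp (continuous_fst.comp continuous_snd)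
    have c3 : ∀ e, Continuous fun p : Par ι => p.2.2 e := fun e =>
      (continuous_apply e).comp (continuous_snd.comp continuous_snd)
    have e1 : PS ι K s = (⋂ e, {p : Par ι | |p.1 e| ≤ 1}) ∩ ((⋃ e, {p : Par ι | p.1 e = 1}) ∩
        ((⋂ e, {p : Par ι | p.2.1 e ∈ Icc 0 (2 * Real.pi)}) ∩
        ((⋂ e, ({p : Par ι | s ≤ ‖p.2.2 e‖} ∩ {p : Par ι | ‖p.2.2 e‖ ≤ K})) ∩
        (⋂ e, ⋂ e', ⋂ (_ : e ≠ e'), ({p : Par ι | s ≤ ‖p.2.2 e - p.2.2 e'‖} ∩
          {p : Par ι | s ≤ ‖p.2.2 e + p.2.2 e'‖}))))) := by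
      ext p
      simp only [PS, mem_ofPred_eq, mem_inter_iff, mem_iInter, mem_iUnion]
    rw [e1]
    refine (isClosed_iInter fun e => isClosed_le (c1 e).abs continuous_const).inter
      ((isClosed_iUnion_of_finite fun e => isClosed_eq (c1 e) continuous_const).inter
      ((isClosed_iInter fun e => isClosed_Icc.preimage (c2 e)).inter
      ((isClosed_iInter fun e => (isClosed_le continuous_const (c3 e).norm).inter
        (isClosed_le (c3 e).norm continuous_const)).inter
      (isClosed_iInter fun e => isClosed_iInter fun e' => isClosed_iInter fun _ =>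
        (isClosed_le continuous_const ((c3 e).sub (c3 e')).norm).inter
        (isClosed_le continuous_const ((c3 e).add (c3 e')).norm)))))
  · rintro p ⟨h1, -, h2, h3, -⟩
    refine ⟨fun e _ => abs_le.1 (h1 e), fun e _ => h2 e, fun e _ => ?_⟩
    rw [Metric.mem_closedBall, dist_zero_right]
    exact (h3 e).2

theorem thin_local (hN : S_NUL) (K s A η : ℝ) (hs : 0 < s) (hη : 0 < η) (p : Par ι)
    (hp : p ∈ PS ι K s) : ∃ t ∈ 𝓝[PS ι K s] p, ∃ δ : ℝ, 0 < δ ∧ ∀ q ∈ t,
      volume {z : E | z ∈ Metric.ball (0 : E) A ∧ |Fs q z| < δ} ≤ ENNReal.ofReal η := by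
  obtain ⟨-, ⟨e0, he0⟩, -, h3, h4⟩ := hp
  have h0 : volume {y : E | Fs p y = 0} = 0 := by
    refine hN ι p.1 p.2.1 p.2.2 (fun e he => ?_) (fun e e' hee => ⟨fun he => ?_, fun he => ?_⟩)
      ⟨e0, by rw [he0]; exact one_ne_zero⟩
    · have := (h3 e).1
      rw [he, norm_zero] at this
      exact absurd this (not_le.2 hs)
    · have := (h4 e e' hee).1
      rw [he, sub_self, norm_zero] at this
      exact absurd this (not_le.2 hs)
    · have := (h4 e e' hee).2
      rw [he, neg_add_cancel, norm_zero] at this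
      exact absurd this (not_le.2 hs)
  have hcp : Continuous fun z : E => Fs p z :=
    fs_cont.comp (continuous_const.prodMk continuous_id)
  let S : ℕ → Set E := fun n => {z : E | z ∈ Metric.ball (0 : E) A ∧ |Fs p z| < 1 / ((n : ℝ) + 1)}
  have hSm : ∀ n, MeasurableSet (S n) := fun n =>
    Metric.isOpen_ball.measurableSet.inter (isOpen_lt hcp.abs continuous_const).measurableSet
  have hSa : Antitone S := by
    intro m n hmn z hz
    refine ⟨hz.1, hz.2.trans_le ?_⟩
    have : (m : ℝ) ≤ n := by exact_mod_cast hmn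
    exact one_div_le_one_div_of_le (by positivity) (by linarith)
  have hSf : volume (S 0) ≠ ⊤ :=
    ((measure_mono fun z hz => hz.1).trans_lt (measure_ball_lt_top (x := (0 : E)) (r := A))).ne
  have hT := tendsto_measure_iInter_atTop (μ := volume) (fun n => (hSm n).nullMeasurableSet) hSa
    ⟨0, hSf⟩
  have hI : volume (⋂ n, S n) = 0 := by
    refine measure_mono_null (fun z hz => ?_) h0
    rw [mem_iInter] at hz
    by_contra hne
    obtain ⟨n, hn⟩ := exists_nat_one_div_lt (abs_pos.2 hne)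
    exact absurd (hz n).2 (not_lt.2 hn.le)
  rw [hI] at hT
  obtain ⟨n, hn⟩ := (hT.eventually (gt_mem_nhds (ENNReal.ofReal_pos.2 hη))).exists
  set δ : ℝ := 1 / ((n : ℝ) + 1) with hδ
  have hδ0 : 0 < δ := by positivity
  -- uniform closeness
  have hun : ∀ᶠ q in 𝓝 p, ∀ z ∈ Metric.closedBall (0 : E) A, |Fs q z - Fs p z| < δ / 2 := by
    refine (isCompact_closedBall (0 : E) A).eventually_forall_of_forall_eventually fun y _ => ?_
    have hc : Continuous fun r : Par ι × E => |Fs r.1 r.2 - Fs p r.2| :=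
      (fs_cont.sub (hcp.comp continuous_snd)).abs
    refine hc.continuousAt.eventually (gt_mem_nhds ?_)
    show |Fs p y - Fs p y| < δ / 2
    rw [sub_self, abs_zero]
    positivity
  refine ⟨_, mem_nhdsWithin_of_mem_nhds hun, δ / 2, by positivity, fun q hq => ?_⟩
  refine (measure_mono fun z hz => ?_).trans hn.le
  refine ⟨hz.1, ?_⟩
  have h5 := hq z (Metric.ball_subset_closedBall hz.1)
  have h6 := hz.2
  rw [abs_lt] at h5 h6 ⊢
  constructor <;> linarith [h5.1, h5.2, h6.1, h6.2]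

theorem thin_all (hN : S_NUL) (K s A η : ℝ) (hs : 0 < s) (hη : 0 < η) :
    ∃ δ : ℝ, 0 < δ ∧ ∀ q ∈ PS ι K s,
      volume {z : E | z ∈ Metric.ball (0 : E) A ∧ |Fs q z| < δ} ≤ ENNReal.ofReal η := by
  refine (ps_compact K s).induction_on (p := fun t => ∃ δ : ℝ, 0 < δ ∧ ∀ q ∈ t,
      volume {z : E | z ∈ Metric.ball (0 : E) A ∧ |Fs q z| < δ} ≤ ENNReal.ofReal η)
    ⟨1, one_pos, fun q hq => absurd hq (notMem_empty q)⟩ ?_ ?_
    (fun p hp => thin_local hN K s A η hs hη p hp)
  · rintro t t' htt ⟨δ, h1, h2⟩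
    exact ⟨δ, h1, fun q hq => h2 q (htt hq)⟩
  · rintro t t' ⟨δ, h1, h2⟩ ⟨δ', h1', h2'⟩
    refine ⟨min δ δ', lt_min h1 h1', fun q hq => ?_⟩
    rcases hq with hq | hq
    · refine le_trans (measure_mono ?_) (h2 q hq)
      exact fun z hz => ⟨hz.1, hz.2.trans_le (min_le_left _ _)⟩
    · refine le_trans (measure_mono ?_) (h2' q hq)
      exact fun z hz => ⟨hz.1, hz.2.trans_le (min_le_right _ _)⟩

end

/-- a phase in `[0, 2π]` with the same cosines -/
theorem phase (θ : ℝ) : ∃ θ' ∈ Icc 0 (2 * Real.pi), ∀ t : ℝ, Real.cos (t + θ) = Real.cos (t + θ') := by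
  refine ⟨toIcoMod Real.two_pi_pos 0 θ, ?_, fun t => ?_⟩
  · have h := toIcoMod_mem_Ico Real.two_pi_pos 0 θ
    rw [zero_add] at h
    exact ⟨h.1, h.2.le⟩
  · have h := toIcoMod_add_toIcoDiv_zsmul Real.two_pi_pos 0 θ
    nth_rewrite 1 [← h]
    rw [← add_assoc, zsmul_eq_mul, Real.cos_add_int_mul_two_pi]

theorem t_THI (hN : S_NUL) : S_THI := by
  intro ι _ K s A η hs hA hη
  obtain ⟨δ, hδ, h⟩ := thin_all (ι := ι) hN K s A η hs hη
  refine ⟨δ, hδ, fun a θ k ha ha1 hk hkk x => ?_⟩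
  choose θ' hθ' hcos using fun e => phase (inner ℝ (k e) x + θ e)
  have h1 := h (a, θ', k) ⟨ha, ha1, hθ', hk, hkk⟩
  refine le_trans (le_of_eq ?_) h1
  have h2 : {y : E | y ∈ Metric.ball x A ∧ |∑ e, a e * Real.cos (inner ℝ (k e) y + θ e)| < δ} =
      (fun y => -x + y) ⁻¹' {z : E | z ∈ Metric.ball (0 : E) A ∧ |Fs (a, θ', k) z| < δ} := by
    ext y
    have h3 : -x + y ∈ Metric.ball (0 : E) A ↔ y ∈ Metric.ball x A := by
      rw [Metric.mem_ball, Metric.mem_ball, dist_zero_right, dist_eq_norm, neg_add_eq_sub]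
    have h4 : Fs (a, θ', k) (-x + y) = ∑ e, a e * Real.cos (inner ℝ (k e) y + θ e) := by
      unfold Fs
      refine Finset.sum_congr rfl fun e _ => ?_
      show a e * Real.cos (inner ℝ (k e) (-x + y) + θ' e) = _
      rw [← hcos, inner_add_right, inner_neg_right]
      congr 2
      ring
    rw [mem_preimage, mem_ofPred_eq, mem_ofPred_eq, h3, h4]
  rw [h2, measure_preimage_add]

end Pool.Agent.L7h50.LA
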